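import Pool.Agent.Y171.CG.Tool

/-!
# Project CG, job DOM: the domination inequality
-/

open MeasureTheory Finset Set Filter Topology
open Pool.Agent.Y171.CG

namespace Pool.Agent.Y284.CG

/-- masses `v` of the first type only -/
def mm {k : ℕ} (v : Fin k → ℝ) : Bool → Fin k → ℝ := fun x i => if x then 0 else v i

theorem mm_nonneg {k : ℕ} {v : Fin k → ℝ} (hv : ∀ i, 0 ≤ v i) : ∀ x i, 0 ≤ mm v x i := by
  intro x i
  unfold mm
  split_ifs
  · exact le_refl 0
  · exact hv i

theorem intB (hMB : S_MEB) (hTB : S_TAB) {k : ℕ} {g : ℕ → ℝ} (hg : ∀ r, 2 ≤ r → 0 ≤ g r)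
    {m : Bool → Fin k → ℝ} (hm : ∀ x i, 0 ≤ m x i) :
    IntegrableOn (B g m) (Ioi (0 : ℝ)) := by
  have hmeas : Measurable (B g m) := hMB k g m
  set G : ℝ := ∑ r ∈ range (k + 1), |g r| with hG
  set M : ℝ := ∑ x, ∑ i, m x i with hM
  have hG0 : 0 ≤ G := Finset.sum_nonneg fun _ _ => abs_nonneg _
  have hM0 : 0 ≤ M := Finset.sum_nonneg fun x _ => Finset.sum_nonneg fun i _ => hm x i
  have h1 : ∀ r, 2 ≤ r → r ≤ k → 0 ≤ g r ∧ g r ≤ G := by
    intro r hr hrk
    refine ⟨hg r hr, (le_abs_self _).trans ?_⟩
    exact Finset.single_le_sum (f := fun r => |g r|) (fun _ _ => abs_nonneg _)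
      (Finset.mem_range.2 (by omega))
  have h2 : ∀ x i, 0 ≤ m x i ∧ m x i ≤ M := by
    intro x i
    refine ⟨hm x i, ?_⟩
    have a1 : m x i ≤ ∑ i, m x i :=
      Finset.single_le_sum (f := fun i => m x i) (fun i _ => hm x i) (Finset.mem_univ i)
    have a2 : ∑ i, m x i ≤ M :=
      Finset.single_le_sum (f := fun x => ∑ i, m x i)
        (fun x _ => Finset.sum_nonneg fun i _ => hm x i) (Finset.mem_univ x)
    exact a1.trans a2
  have hbd : ∀ z : ℝ, 0 < z → B g m z ≤ 2 * ((k : ℝ) * (G * M)) ^ 2 * z ^ (-2 : ℝ) := by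
    intro z hz
    have := hTB k g m G M z h1 h2 hG0 hM0 hz
    rw [div_pow] at this
    have e : z ^ (-2 : ℝ) = (z ^ 2)⁻¹ := by
      rw [Real.rpow_neg hz.le]
      norm_cast
    rw [e]
    calc B g m z ≤ _ := this
      _ = _ := by ring
  have hU : Ioi (0 : ℝ) = Set.Ioc (0 : ℝ) 1 ∪ Set.Ioi (1 : ℝ) :=
    (Set.Ioc_union_Ioi_eq_Ioi zero_le_one).symm
  rw [hU]
  apply IntegrableOn.union
  · apply Measure.integrableOn_of_bounded (M := 1)
    · simp
    · exact hmeas.aestronglyMeasurable
    · filter_upwards with z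
      rw [Real.norm_eq_abs, abs_of_nonneg (B_nonneg g m z)]
      exact B_le_one g m z
  · have h3 : IntegrableOn (fun z : ℝ => 2 * ((k : ℝ) * (G * M)) ^ 2 * z ^ (-2 : ℝ)) (Ioi 1) :=
      (integrableOn_Ioi_rpow_of_lt (by norm_num) zero_lt_one).const_mul _
    apply Integrable.mono' h3 hmeas.aestronglyMeasurable
    rw [ae_restrict_iff' measurableSet_Ioi]
    filter_upwards with z hz
    rw [Real.norm_eq_abs, abs_of_nonneg (B_nonneg g m z)]
    exact hbd z (lt_trans zero_lt_one hz)

/-- exchange of the two types -/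
theorem B_swap {k : ℕ} (g : ℕ → ℝ) (m : Bool → Fin k → ℝ) (z : ℝ) :
    B g m z = B g (fun x => m (!x)) z := by
  have hnu : MeasurePreserving (fun t : ℝ => 1 - t) nu nu := by
    have h1 := (Measure.measurePreserving_sub_left (volume : Measure ℝ) 1).restrict_preimage
      (measurableSet_Icc (a := (0 : ℝ)) (b := 1))
    have h2 : (fun t : ℝ => 1 - t) ⁻¹' Set.Icc (0 : ℝ) 1 = Set.Icc (0 : ℝ) 1 := by
      ext t
      simp only [Set.mem_preimage, Set.mem_Icc]
      constructor
      · rintro ⟨a, b⟩; exact ⟨by linarith, by linarith⟩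
      · rintro ⟨a, b⟩; exact ⟨by linarith, by linarith⟩
    rw [h2] at h1
    exact h1
  have hcube : MeasurePreserving (fun (u : Fin k → ℝ) i => 1 - u i) (cube k) (cube k) :=
    measurePreserving_pi (fun _ : Fin k => nu) (fun _ : Fin k => nu) (fun _ => hnu)
  unfold B
  have hE : MeasurableSet {u : Fin k → ℝ | Hit g (m false) z u ∨
      Hit g (m true) z (fun i => 1 - u i)} :=
    (measurableSet_hit g (m false) z).union (measurableSet_hitR g (m true) z)
  have h3 := hcube.measure_preimage hE.nullMeasurableSet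
  rw [Measure.real, Measure.real, ← h3]
  congr 2
  ext u
  simp only [Set.mem_preimage, Set.mem_ofPred_eq, sub_sub_cancel, Bool.not_false, Bool.not_true]
  exact or_comm

theorem upd_mm {k : ℕ} (v : Fin k → ℝ) (i : Fin k) (a : ℝ) :
    upd (mm v) i (fun x => if x then 0 else a) = mm (fun j => if j = i then a else v j) := by
  funext x j
  unfold upd mm
  cases x <;> by_cases h : j = i <;> simp [h]

/-- value at the vertices of a cube -/
theorem vertex (hV : S_VER) (hMB : S_MEB) (hTB : S_TAB) (hMF : S_MEF) {k : ℕ} {g : ℕ → ℝ}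
    (hg : ∀ r, 2 ≤ r → 0 ≤ g r)
    (hJ : ∀ n : ℕ, 2 ≤ n → n ≤ k → (n : ℝ) - 1 ≤ J g n) (S : Finset (Fin k)) {M : ℝ}
    (hM : 0 < M) :
    M * ((S.card : ℝ) - 1) ≤ ∫ z in Ioi (0 : ℝ), B g (mm fun i => if i ∈ S then M else 0) z := by
  have hv : ∀ i : Fin k, 0 ≤ (fun i => if i ∈ S then M else 0) i := by
    intro i
    show 0 ≤ if i ∈ S then M else 0
    split_ifs
    · exact hM.le
    · exact le_refl 0
  by_cases hS : 2 ≤ S.card
  · have hle : ∀ z : ℝ, 0 < z → 1 - F g S.card (z / M) ≤
        B g (mm fun i => if i ∈ S then M else 0) z := by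
      intro z hz
      rw [← hV g k S M z hM hz hg]
      unfold B
      refine measureReal_mono ?_ (measure_ne_top _ _)
      intro u hu
      exact Or.inl hu
    have hI := intB hMB hTB hg (mm_nonneg hv)
    have hI2 : IntegrableOn (fun z : ℝ => 1 - F g S.card (z / M)) (Ioi 0) := by
      apply Integrable.mono' hI
      · apply Measurable.aestronglyMeasurable
        exact measurable_const.sub ((hMF g S.card).comp (measurable_id.div_const M))
      · rw [ae_restrict_iff' measurableSet_Ioi]
        filter_upwards with z hz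
        rw [Real.norm_eq_abs, abs_of_nonneg (by linarith [F_le_one g S.card (z / M)])]
        exact hle z hz
    have h1 : ∫ z in Ioi (0 : ℝ), (1 - F g S.card (z / M)) = M * J g S.card := by
      have h2 := integral_comp_mul_left_Ioi (fun z => 1 - F g S.card z) 0 (inv_pos.2 hM)
      rw [mul_zero, inv_inv, smul_eq_mul] at h2
      rw [J, ← h2]
      apply setIntegral_congr_fun measurableSet_Ioi
      intro z _
      show 1 - F g S.card (z / M) = 1 - F g S.card (M⁻¹ * z)
      rw [div_eq_inv_mul]
    have h3 : M * J g S.card ≤ ∫ z in Ioi (0 : ℝ), B g (mm fun i => if i ∈ S then M else 0) z := by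
      rw [← h1]
      exact setIntegral_mono_on hI2 hI measurableSet_Ioi hle
    have h4 : S.card ≤ k := by simpa using Finset.card_le_univ S
    exact (mul_le_mul_of_nonneg_left (hJ S.card hS h4) hM.le).trans h3
  · have h1 : (S.card : ℝ) ≤ 1 := by
      have : S.card ≤ 1 := by omega
      exact_mod_cast this
    have h2 : 0 ≤ ∫ z in Ioi (0 : ℝ), B g (mm fun i => if i ∈ S then M else 0) z :=
      integral_nonneg fun z => B_nonneg _ _ _
    have h3 : M * ((S.card : ℝ) - 1) ≤ 0 := mul_nonpos_of_nonneg_of_nonpos hM.le (by linarith)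
    exact h3.trans h2

theorem box (hC : S_CON) (hV : S_VER) (hMB : S_MEB) (hTB : S_TAB) (hMF : S_MEF) {k : ℕ}
    {g : ℕ → ℝ} (hg : ∀ r, 2 ≤ r → 0 ≤ g r)
    (hJ : ∀ n : ℕ, 2 ≤ n → n ≤ k → (n : ℝ) - 1 ≤ J g n) {M : ℝ} (hM : 0 < M) :
    ∀ (Z : Finset (Fin k)) (v : Fin k → ℝ), (∀ i, 0 ≤ v i ∧ v i ≤ M) →
      (∀ i, i ∉ Z → v i = 0 ∨ v i = M) → ∑ i, v i - M ≤ ∫ z in Ioi (0 : ℝ), B g (mm v) z := by
  intro Z
  induction Z using Finset.induction_on with
  | empty =>
    intro v _ hvert
    have hv : v = fun i => if i ∈ (univ.filter fun i => v i = M) then M else 0 := by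
      funext i
      by_cases h : v i = M
      · simp [h]
      · rcases hvert i (Finset.notMem_empty i) with h0 | h0
        · simp [h0]
        · exact absurd h0 h
    set S : Finset (Fin k) := univ.filter fun i => v i = M with hS
    have h1 := vertex hV hMB hTB hMF hg hJ S hM
    rw [← hv] at h1
    have h2 : ∑ i : Fin k, v i = S.card * M := by
      rw [hv, Finset.sum_ite_mem]
      simp
    rw [h2]
    linarith
  | insert i Z hi ih =>
    intro v hv hvert
    have e0 := ih (fun j => if j = i then 0 else v j) (by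
      intro j
      by_cases h : j = i
      · simp [h, hM.le]
      · simpa [h] using hv j) (by
      intro j hj
      by_cases h : j = i
      · simp [h]
      · simpa [h] using hvert j (by simp [h, hj]))
    have e1 := ih (fun j => if j = i then M else v j) (by
      intro j
      by_cases h : j = i
      · simp [h, hM.le]
      · simpa [h] using hv j) (by
      intro j hj
      by_cases h : j = i
      · simp [h]
      · simpa [h] using hvert j (by simp [h, hj]))
    have hvi : v = fun j => if j = i then v i else v j := by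
      funext j
      by_cases h : j = i
      · subst h; simp
      · simp [h]
    have hsum : ∀ y, ∑ j, (if j = i then y else v j) = y + ∑ j ∈ univ.erase i, v j := by
      intro y
      rw [← Finset.add_sum_erase univ _ (mem_univ i), if_pos rfl]
      congr 1
      apply Finset.sum_congr rfl
      intro j hj
      rw [if_neg (Finset.ne_of_mem_erase hj)]
    have hn0 : ∀ j, 0 ≤ (fun j => if j = i then (0 : ℝ) else v j) j := by
      intro j
      show 0 ≤ if j = i then (0 : ℝ) else v j
      split_ifs
      · exact le_refl 0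
      · exact (hv j).1
    have hnM : ∀ j, 0 ≤ (fun j => if j = i then M else v j) j := by
      intro j
      show 0 ≤ if j = i then M else v j
      split_ifs
      · exact hM.le
      · exact (hv j).1
    by_cases hvi0 : v i = 0
    · have : v = fun j => if j = i then 0 else v j := by
        rw [← hvi0]; exact hvi
      rw [← this] at e0
      exact e0
    by_cases hviM : v i = M
    · have : v = fun j => if j = i then M else v j := by
        rw [← hviM]; exact hvi
      rw [← this] at e1
      exact e1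
    have hvpos : 0 < v i := lt_of_le_of_ne (hv i).1 (Ne.symm hvi0)
    have hvlt : v i < M := lt_of_le_of_ne (hv i).2 hviM
    set l : ℝ := v i / M with hl
    have hl0 : 0 < l := div_pos hvpos hM
    have hl1 : l < 1 := (div_lt_one hM).2 hvlt
    have hlM : l * M = v i := div_mul_cancel₀ _ hM.ne'
    have hcon : ∀ z : ℝ, 0 < z → (1 - l) * B g (mm fun j => if j = i then 0 else v j) z +
        l * B g (mm fun j => if j = i then M else v j) z ≤ B g (mm v) z := by
      intro z hz
      have h := hC k g (mm v) i z (fun x => if x then 0 else 0) (fun x => if x then 0 else M)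
        (1 - l) l hg (mm_nonneg fun j => (hv j).1) hz
        (by intro x; cases x <;> simp) (by intro x; cases x <;> simp [hM.le])
        (by linarith) hl0 (by ring)
      rw [upd_mm, upd_mm] at h
      have h5 : (fun x : Bool => (1 - l) * (if x then (0 : ℝ) else 0) +
          l * (if x then (0 : ℝ) else M)) = fun x : Bool => if x then (0 : ℝ) else v i := by
        funext x
        cases x
        · simp [hlM]
        · simp
      rw [h5, upd_mm, ← hvi] at h
      exact h
    have I0 := intB hMB hTB hg (mm_nonneg hn0)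
    have I1 := intB hMB hTB hg (mm_nonneg hnM)
    have I2 := intB hMB hTB hg (mm_nonneg fun j => (hv j).1)
    have hint : (1 - l) * (∫ z in Ioi (0 : ℝ), B g (mm fun j => if j = i then 0 else v j) z) +
        l * (∫ z in Ioi (0 : ℝ), B g (mm fun j => if j = i then M else v j) z) ≤
        ∫ z in Ioi (0 : ℝ), B g (mm v) z := by
      rw [← integral_const_mul, ← integral_const_mul, ← integral_add (I0.const_mul _)
        (I1.const_mul _)]
      exact setIntegral_mono_on ((I0.const_mul _).add (I1.const_mul _)) I2 measurableSet_Ioi hcon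
    rw [hsum] at e0 e1
    have hs : ∑ j, v j = v i + ∑ j ∈ univ.erase i, v j := by
      conv_lhs => rw [hvi]
      exact hsum (v i)
    rw [hs]
    have k0 := mul_le_mul_of_nonneg_left e0 (by linarith : 0 ≤ 1 - l)
    have k1 := mul_le_mul_of_nonneg_left e1 hl0.le
    nlinarith [k0, k1, hint, hlM]

theorem t (hC : S_CON) (hV : S_VER) (hMB : S_MEB) (hTB : S_TAB) (hMF : S_MEF) (_hTF : S_TAI) :
    S_DOM := by
  intro k g hg hJ m hm hk
  have key : ∀ v : Fin k → ℝ, (∀ i, 0 ≤ v i) → ∃ j, ∑ i, v i - v j ≤
      ∫ z in Ioi (0 : ℝ), B g (mm v) z := by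
    intro v hv
    have hne : (univ : Finset (Fin k)).Nonempty := ⟨⟨0, hk⟩, mem_univ _⟩
    obtain ⟨j, _, hj⟩ := Finset.exists_max_image univ v hne
    refine ⟨j, ?_⟩
    rcases (hv j).eq_or_lt with h0 | hpos
    · have hz : ∀ i, v i = 0 := fun i => le_antisymm (h0 ▸ hj i (mem_univ i)) (hv i)
      have : ∑ i, v i - v j = 0 := by simp [hz]
      rw [this]
      exact integral_nonneg fun z => B_nonneg _ _ _
    · exact box hC hV hMB hTB hMF hg hJ hpos univ v (fun i => ⟨hv i, hj i (mem_univ i)⟩)
        (fun i hi => absurd (Finset.mem_univ i) hi)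
  have keyf : ∀ m : Bool → Fin k → ℝ, (∀ x j, 0 ≤ m x j) → ∃ j,
      ∑ i, m false i - m false j ≤ ∫ z in Set.Ioi (0 : ℝ), B g m z := by
    intro m hm
    obtain ⟨j, hj⟩ := key (m false) (hm false)
    refine ⟨j, hj.trans ?_⟩
    apply setIntegral_mono_on (intB hMB hTB hg (mm_nonneg (hm false))) (intB hMB hTB hg hm)
      measurableSet_Ioi
    intro z _
    apply B_mono hg
    intro x i
    unfold mm
    cases x
    · simp
    · simpa using hm true i
  intro x
  cases x
  · exact keyf m hm
  · obtain ⟨j, hj⟩ := keyf (fun x => m (!x)) (fun x j => hm (!x) j)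
    refine ⟨j, hj.trans (le_of_eq ?_)⟩
    congr 1
    funext z
    exact (B_swap g m z).symm

end Pool.Agent.Y284.CG
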